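import Mathlib

namespace Pool.Agent.Results.MP_5e9fbd_co.Four

open Finset SimpleGraph

theorem two (H : SimpleGraph (Fin 4)) (a b c d : Fin 4) (h1 : H.Adj a b) (h2 : H.Adj c d)
    (h : s(a, b) ≠ s(c, d)) : Nat.card H.ConnectedComponent ≤ 2 := by
  have k : ∀ a b c d : Fin 4, a ≠ b → c ≠ d → s(a, b) ≠ s(c, d) →
      (∀ w, w = a ∨ w = b ∨ w = c ∨ w = d) ∨ ((a = c ∨ a = d ∨ b = c ∨ b = d) ∧
        ∃ v, ∀ w, w = a ∨ w = b ∨ w = c ∨ w = d ∨ w = v) := by decide +kernel
  have r1 := h1.reachable
  have r2 := h2.reachable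
  have : ∃ u v, ∀ w, H.Reachable u w ∨ H.Reachable v w := by
    rcases k a b c d h1.ne h2.ne h with k | ⟨k, v, k'⟩
    · refine ⟨a, c, fun w => ?_⟩
      rcases k w with rfl | rfl | rfl | rfl
      exacts [.inl (.refl _), .inl r1, .inr (.refl _), .inr r2]
    · have r3 : H.Reachable a c := by
        rcases k with rfl | rfl | rfl | rfl
        exacts [.refl _, r2.symm, r1, r1.trans r2.symm]
      refine ⟨a, v, fun w => ?_⟩
      rcases k' w with rfl | rfl | rfl | rfl | rfl
      exacts [.inl (.refl _), .inl r1, .inl r3, .inl (r3.trans r2), .inr (.refl _)]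
  obtain ⟨u, v, h⟩ := this
  have s : Function.Surjective fun t : Bool => H.connectedComponentMk (if t then u else v) := by
    intro C
    induction C using ConnectedComponent.ind with
    | h w =>
      rcases h w with h | h
      · exact ⟨true, ConnectedComponent.sound h⟩
      · exact ⟨false, ConnectedComponent.sound h⟩
  simpa using Nat.card_le_card_of_surjective _ s

def E : Finset (Sym2 (Fin 4)) := {s(0, 1), s(0, 2), s(0, 3), s(1, 2), s(1, 3), s(2, 3)}

theorem result : ∃ (n : ℕ) (F : Finset (SimpleGraph (Fin n))), 3 ≤ n ∧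
    (∀ G ∈ F, ∀ G' ∈ F, G ≠ G' → Nat.card (G ⊓ G').ConnectedComponent ≤ 2) ∧
    ((n : ℚ) + 1) / 2 ^ n * 2 ^ n.choose 2 < F.card := by
  classical
  have hE : ∀ e ∈ E, ¬ e.IsDiag := by decide
  have cE : E.card = 6 := by decide
  refine ⟨4, (E.powerset.filter fun s => 4 ≤ s.card).image
    fun s : Finset (Sym2 (Fin 4)) => fromEdgeSet (s : Set (Sym2 (Fin 4))),
    by norm_num, ?_, ?_⟩
  · intro G hG G' hG' _
    obtain ⟨s, hs, rfl⟩ := mem_image.1 hG
    obtain ⟨t, ht, rfl⟩ := mem_image.1 hG'
    simp only [mem_filter, mem_powerset] at hs ht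
    have h1 := card_union_add_card_inter s t
    have h2 := card_le_card (union_subset hs.1 ht.1)
    obtain ⟨e, he, f, hf, ne⟩ := one_lt_card.1 (show 1 < (s ∩ t).card by omega)
    rw [mem_inter] at he hf
    have d1 := hE e (hs.1 he.1)
    have d2 := hE f (hs.1 hf.1)
    induction e using Sym2.ind with
    | h a b =>
    induction f using Sym2.ind with
    | h c d =>
    simp only [Sym2.mk_isDiag_iff] at d1 d2
    exact two _ a b c d (by simp [he, d1]) (by simp [hf, d2]) ne
  · rw [card_image_of_injOn]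
    · have : (E.powerset.filter fun s => 4 ≤ s.card).card = 22 := by decide +kernel
      rw [this]; norm_num [Nat.choose]
    · intro s hs t ht h
      simp only [coe_filter, mem_powerset, Set.mem_ofPred_eq] at hs ht
      have h' := congrArg edgeSet h
      simp only [edgeSet_fromEdgeSet] at h'
      ext e
      constructor
      · intro he
        exact ((Set.ext_iff.1 h' e).1 ⟨he, hE e (hs.1 he)⟩).1
      · intro he
        exact ((Set.ext_iff.1 h' e).2 ⟨he, hE e (ht.1 he)⟩).1

end Pool.Agent.Results.MP_5e9fbd_co.Four
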